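import Pool.Agent.Y142.SS.Stm

/-! A Frobenius element of the Galois group of the field of `ℓ`-adic numbers. -/

set_option autoImplicit false

open Polynomial

namespace Pool.Agent.Y255.SS

variable (ℓ : ℕ) [hℓ : Fact ℓ.Prime]

local instance : SMulCommClass (AlgebraicClosure ℚ_[ℓ] ≃ₐ[ℚ_[ℓ]] AlgebraicClosure ℚ_[ℓ]) ℤ_[ℓ]
    (AlgebraicClosure ℚ_[ℓ]) := by
  refine ⟨fun g a x => ?_⟩
  rw [← algebraMap_smul ℚ_[ℓ] a x, ← algebraMap_smul ℚ_[ℓ] a (g • x)]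
  exact smul_comm g _ x

/-- the ring of integers -/
abbrev BB : Type := integralClosure ℤ_[ℓ] (AlgebraicClosure ℚ_[ℓ])

theorem int_of_le {x : AlgebraicClosure ℚ_[ℓ]} (hx : ‖x‖ ≤ 1) : IsIntegral ℤ_[ℓ] x := by
  have hi : IsIntegral ℚ_[ℓ] x := Algebra.IsIntegral.isIntegral x
  have h1 : spectralValue (minpoly ℚ_[ℓ] x) ≤ 1 := hx
  rw [spectralValue_le_one_iff (minpoly.monic hi)] at h1
  have h2 : minpoly ℚ_[ℓ] x ∈ Polynomial.lifts (algebraMap ℤ_[ℓ] ℚ_[ℓ]) := by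
    rw [Polynomial.lifts_iff_coeff_lifts]
    intro n
    exact ⟨⟨(minpoly ℚ_[ℓ] x).coeff n, h1 n⟩, rfl⟩
  obtain ⟨q, hq1, _, hq3⟩ := Polynomial.lifts_and_natDegree_eq_and_monic h2 (minpoly.monic hi)
  refine ⟨q, hq3, ?_⟩
  have h3 : aeval x (q.map (algebraMap ℤ_[ℓ] ℚ_[ℓ])) = 0 := by
    rw [hq1]
    exact minpoly.aeval _ _
  rw [aeval_map_algebraMap] at h3
  exact h3

theorem le_of_int {x : AlgebraicClosure ℚ_[ℓ]} (hx : IsIntegral ℤ_[ℓ] x) : ‖x‖ ≤ 1 := by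
  have hi : IsIntegral ℚ_[ℓ] x := Algebra.IsIntegral.isIntegral x
  have h1 : spectralValue (minpoly ℚ_[ℓ] x) ≤ 1 := by
    rw [spectralValue_le_one_iff (minpoly.monic hi)]
    intro n
    rw [minpoly.isIntegrallyClosed_eq_field_fractions' ℚ_[ℓ] hx, coeff_map]
    exact PadicInt.norm_le_one _
  exact h1

/-- the maximal ideal -/
noncomputable def mI : Ideal (BB ℓ) where
  carrier := {x | ‖(x : AlgebraicClosure ℚ_[ℓ])‖ < 1}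
  zero_mem' := by
    show ‖(0 : AlgebraicClosure ℚ_[ℓ])‖ < 1
    rw [norm_zero]
    exact one_pos
  add_mem' := by
    intro x y hx hy
    exact (IsUltrametricDist.norm_add_le_max (S := PadicAlgCl ℓ) _ _).trans_lt (max_lt hx hy)
  smul_mem' := by
    intro c x hx
    show ‖((c : AlgebraicClosure ℚ_[ℓ]) * (x : AlgebraicClosure ℚ_[ℓ]))‖ < 1
    rw [norm_mul]
    have h1 := le_of_int ℓ c.2
    have h2 : ‖(x : AlgebraicClosure ℚ_[ℓ])‖ < 1 := hx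
    calc ‖(c : AlgebraicClosure ℚ_[ℓ])‖ * ‖(x : AlgebraicClosure ℚ_[ℓ])‖
        ≤ 1 * ‖(x : AlgebraicClosure ℚ_[ℓ])‖ := mul_le_mul_of_nonneg_right h1 (norm_nonneg _)
      _ < 1 := by rw [one_mul]; exact h2

theorem mem_mI {x : BB ℓ} : x ∈ mI ℓ ↔ ‖(x : AlgebraicClosure ℚ_[ℓ])‖ < 1 := Iff.rfl

instance : (mI ℓ).IsPrime := by
  refine ⟨?_, ?_⟩
  · intro h
    have h1 : (1 : BB ℓ) ∈ mI ℓ := by rw [h]; trivial
    rw [mem_mI] at h1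
    simp at h1
  · intro x y hxy
    rw [mem_mI] at hxy ⊢
    rw [mem_mI]
    by_contra hcon
    push Not at hcon
    have h1 : ‖((x * y : BB ℓ) : AlgebraicClosure ℚ_[ℓ])‖ =
        ‖(x : AlgebraicClosure ℚ_[ℓ])‖ * ‖(y : AlgebraicClosure ℚ_[ℓ])‖ := norm_mul _ _
    rw [h1] at hxy
    have h2 := mul_le_mul hcon.1 hcon.2 zero_le_one (norm_nonneg _)
    linarith

theorem norm_alg (a : ℤ_[ℓ]) : ‖((algebraMap ℤ_[ℓ] (BB ℓ) a : BB ℓ) : AlgebraicClosure ℚ_[ℓ])‖ = ‖a‖ := by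
  have h1 : ((algebraMap ℤ_[ℓ] (BB ℓ) a : BB ℓ) : AlgebraicClosure ℚ_[ℓ]) =
      algebraMap ℚ_[ℓ] (AlgebraicClosure ℚ_[ℓ]) (a : ℚ_[ℓ]) := rfl
  rw [h1]
  exact PadicAlgCl.norm_extends ℓ _

instance : (mI ℓ).LiesOver (IsLocalRing.maximalIdeal ℤ_[ℓ]) := by
  refine ⟨?_⟩
  ext a
  rw [Ideal.under_def, Ideal.mem_comap, mem_mI, norm_alg, IsLocalRing.mem_maximalIdeal,
    PadicInt.mem_nonunits]

theorem isInv : Algebra.IsInvariant ℤ_[ℓ] (BB ℓ)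
    (AlgebraicClosure ℚ_[ℓ] ≃ₐ[ℚ_[ℓ]] AlgebraicClosure ℚ_[ℓ]) := by
  refine ⟨fun b hb => ?_⟩
  have h1 : (b : AlgebraicClosure ℚ_[ℓ]) ∈
      (⊥ : IntermediateField ℚ_[ℓ] (AlgebraicClosure ℚ_[ℓ])) := by
    rw [InfiniteGalois.mem_bot_iff_fixed]
    intro g
    exact congrArg (fun z : BB ℓ => (z : AlgebraicClosure ℚ_[ℓ])) (hb g)
  obtain ⟨k, hk⟩ := IntermediateField.mem_bot.1 h1
  have h2 : ‖k‖ ≤ 1 := by
    have h3 := le_of_int ℓ b.2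
    rw [← hk] at h3
    have h4 : ‖algebraMap ℚ_[ℓ] (AlgebraicClosure ℚ_[ℓ]) k‖ = ‖k‖ := PadicAlgCl.norm_extends ℓ k
    rwa [h4] at h3
  exact ⟨⟨k, h2⟩, Subtype.ext hk⟩

theorem lf : ∃ τ : AlgebraicClosure ℚ_[ℓ] ≃ₐ[ℚ_[ℓ]] AlgebraicClosure ℚ_[ℓ],
    ∀ x : AlgebraicClosure ℚ_[ℓ], ‖x‖ ≤ 1 → ‖τ x - x ^ ℓ‖ < 1 := by
  classical
  have : Algebra.IsInvariant ℤ_[ℓ] (BB ℓ)
    (AlgebraicClosure ℚ_[ℓ] ≃ₐ[ℚ_[ℓ]] AlgebraicClosure ℚ_[ℓ]) := isInv ℓ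
  let _ : TopologicalSpace (BB ℓ) := ⊥
  have : DiscreteTopology (BB ℓ) := ⟨rfl⟩
  have : ContinuousSMul (AlgebraicClosure ℚ_[ℓ] ≃ₐ[ℚ_[ℓ]] AlgebraicClosure ℚ_[ℓ]) (BB ℓ) := by
    rw [continuousSMul_iff_stabilizer_isOpen]
    intro x
    have h1 := stabilizer_isOpen_of_isIntegral (K := ℚ_[ℓ]) (x : AlgebraicClosure ℚ_[ℓ])
    convert h1 using 2
    ext g
    rw [MulAction.mem_stabilizer_iff, MulAction.mem_stabilizer_iff]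
    constructor
    · intro h
      exact congrArg (fun z : BB ℓ => (z : AlgebraicClosure ℚ_[ℓ])) h
    · intro h
      exact Subtype.ext h
  let _ : Field (ℤ_[ℓ] ⧸ IsLocalRing.maximalIdeal ℤ_[ℓ]) := Ideal.Quotient.field _
  have hmax : (mI ℓ).IsMaximal :=
    Ideal.isMaximal_of_isIntegral_of_isMaximal_comap (R := ℤ_[ℓ]) (mI ℓ) (by
      have h1 := (inferInstance : (mI ℓ).LiesOver (IsLocalRing.maximalIdeal ℤ_[ℓ])).over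
      rw [Ideal.under_def] at h1
      rw [← h1]
      infer_instance)
  let _ : Field ((BB ℓ) ⧸ mI ℓ) := Ideal.Quotient.field _
  have e : (ℤ_[ℓ] ⧸ IsLocalRing.maximalIdeal ℤ_[ℓ]) ≃ ZMod ℓ := (PadicInt.residueField (p := ℓ)).toEquiv
  let _ : Fintype (ℤ_[ℓ] ⧸ IsLocalRing.maximalIdeal ℤ_[ℓ]) := Fintype.ofEquiv _ e.symm
  have hcard : Fintype.card (ℤ_[ℓ] ⧸ IsLocalRing.maximalIdeal ℤ_[ℓ]) = ℓ := by
    rw [Fintype.card_congr e, ZMod.card]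
  have : Algebra.IsAlgebraic (ℤ_[ℓ] ⧸ IsLocalRing.maximalIdeal ℤ_[ℓ]) ((BB ℓ) ⧸ mI ℓ) := by
    have : Algebra.IsIntegral (ℤ_[ℓ] ⧸ IsLocalRing.maximalIdeal ℤ_[ℓ]) ((BB ℓ) ⧸ mI ℓ) :=
      inferInstance
    exact Algebra.IsIntegral.isAlgebraic
  obtain ⟨g, hg⟩ := Ideal.Quotient.stabilizerHom_surjective_of_profinite
    (G := AlgebraicClosure ℚ_[ℓ] ≃ₐ[ℚ_[ℓ]] AlgebraicClosure ℚ_[ℓ])
    (IsLocalRing.maximalIdeal ℤ_[ℓ]) (mI ℓ)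
    (FiniteField.frobeniusAlgEquivOfAlgebraic (ℤ_[ℓ] ⧸ IsLocalRing.maximalIdeal ℤ_[ℓ])
      ((BB ℓ) ⧸ mI ℓ))
  refine ⟨g.1, fun x hx => ?_⟩
  have h1 := DFunLike.congr_fun hg (Ideal.Quotient.mk (mI ℓ) (⟨x, int_of_le ℓ hx⟩ : BB ℓ))
  rw [Ideal.Quotient.stabilizerHom_apply] at h1
  have h3 : ∀ z : (BB ℓ) ⧸ mI ℓ, FiniteField.frobeniusAlgEquivOfAlgebraic
      (ℤ_[ℓ] ⧸ IsLocalRing.maximalIdeal ℤ_[ℓ]) ((BB ℓ) ⧸ mI ℓ) z = z ^ ℓ := fun z =>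
    (rfl : _ = z ^ Fintype.card (ℤ_[ℓ] ⧸ IsLocalRing.maximalIdeal ℤ_[ℓ])).trans
      (congrArg (fun n : ℕ => z ^ n) hcard)
  rw [h3, ← map_pow] at h1
  have h2 := Ideal.Quotient.mk_eq_mk_iff_sub_mem _ _ |>.1 h1
  exact h2

theorem t : Pool.Agent.Y142.SS.S_LF := fun ℓ _ => lf ℓ

end Pool.Agent.Y255.SS
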